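import Pool.Agent.H92.GaborOrbit2
import Pool.Agent.H62.RieszShift

set_option autoImplicit false
open MeasureTheory
open scoped InnerProductSpace

namespace Pool.Agent.Results.MP_5c6457_an.Universal

/-- the Hilbert space `L²(ℝ)` -/
noncomputable abbrev L2 := Lp ℂ 2 (volume : Measure ℝ)

/-- `G (m, n) = E_{mb} T_{na} g` -/
def IsGabor (a b : ℝ) (g : L2) (G : ℤ × ℤ → L2) : Prop :=
  ∀ m n : ℤ, G (m, n) =ᵐ[volume]
    fun x : ℝ => Complex.exp (2 * Real.pi * Complex.I * (m * b * x)) * g (x - n * a)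

variable {H : Type} [NormedAddCommGroup H] [InnerProductSpace ℂ H]

/-- `G` is a frame of `H` -/
def IsFrame (G : ℤ × ℤ → H) : Prop :=
  ∃ A B : ℝ, 0 < A ∧ 0 < B ∧ ∀ f : H,
    Summable (fun l => ‖⟪f, G l⟫_ℂ‖ ^ 2) ∧ A * ‖f‖ ^ 2 ≤ ∑' l, ‖⟪f, G l⟫_ℂ‖ ^ 2 ∧
      ∑' l, ‖⟪f, G l⟫_ℂ‖ ^ 2 ≤ B * ‖f‖ ^ 2

/-- there is a bounded linear operator `T : V → H` with `T f_k = f_{k+1}` -/
def BoundedShiftOn {I : Type} [Add I] [One I] (V : Submodule ℂ H) (f : I → H) : Prop :=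
  ∃ T : V →L[ℂ] H, ∀ (k : I) (h : f k ∈ V), T ⟨f k, h⟩ = f (k + 1)

/-- some ordering of `G` by `I` has a bounded representation -/
def BoundedRep (I : Type) [Add I] [One I] (G : ℤ × ℤ → H) : Prop :=
  ∃ σ : I ≃ ℤ × ℤ, BoundedShiftOn (Submodule.span ℂ (Set.range G)) (fun k : I => G (σ k))

/-- there is an injective bounded linear operator `T : H → H` with `T f_k = f_{k+1}` -/
def InjShift {I : Type} [Add I] [One I] (f : I → H) : Prop :=
  ∃ T : H →L[ℂ] H, Function.Injective T ∧ ∀ k : I, T (f k) = f (k + 1)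

/-- the ordering `σ` gives a bounded representation (by an injective bounded operator on all of `L²(ℝ)`)
for every Gabor frame in the class `𝒞_I` -/
def Universal (I : Type) [Add I] [One I] (σ : I ≃ ℤ × ℤ) : Prop :=
  ∀ (a b : ℝ) (g : L2) (G : ℤ × ℤ → L2), 0 < a → 0 < b → g ≠ 0 → IsGabor a b g G → IsFrame G →
    BoundedRep I G → InjShift fun k : I => G (σ k)

theorem result : (∃ σ, Universal ℕ σ) ∧ (∃ σ, Universal ℤ σ) ∧ (∀ σ, Universal ℕ σ) ∧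
    (∀ σ, Universal ℤ σ) := by
  have h1 : ∀ σ, Universal ℕ σ := fun σ a b g G _ _ _ hG ⟨A, B, hA, hB, hf⟩ ⟨τ, T, hT⟩ => by
    obtain ⟨L, hL⟩ := Pool.Agent.H92.GaborOrbit2.main a b g G hG hA hB hf
      (Or.inl ⟨τ, _, T, fun k => ⟨Submodule.subset_span ⟨τ k, rfl⟩, hT k _⟩⟩)
    obtain ⟨S, h1, h2⟩ := Pool.Agent.H62.RieszShift.shift G L hL (fun l => σ (σ.symm l + 1))
      (σ.injective.comp ((add_left_injective 1).comp σ.symm.injective))
    exact ⟨S, h1, fun k => by simpa using h2 (σ k)⟩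
  have h2 : ∀ σ, Universal ℤ σ := fun σ a b g G _ _ _ hG ⟨A, B, hA, hB, hf⟩ ⟨τ, T, hT⟩ => by
    obtain ⟨L, hL⟩ := Pool.Agent.H92.GaborOrbit2.main a b g G hG hA hB hf
      (Or.inr ⟨τ, _, T, fun k => ⟨Submodule.subset_span ⟨τ k, rfl⟩, hT k _⟩⟩)
    obtain ⟨S, h1, h2⟩ := Pool.Agent.H62.RieszShift.shift G L hL (fun l => σ (σ.symm l + 1))
      (σ.injective.comp ((add_left_injective 1).comp σ.symm.injective))
    exact ⟨S, h1, fun k => by simpa using h2 (σ k)⟩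
  exact ⟨⟨(Denumerable.eqv _).symm, h1 _⟩, ⟨(Denumerable.eqv _).trans (Denumerable.eqv _).symm, h2 _⟩, h1, h2⟩

end Pool.Agent.Results.MP_5c6457_an.Universal
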